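import Pool.Agent.H651R2.SingGraph

set_option autoImplicit false

/-!
# The polarized relation `(κ, κ) → ((κ, λ), (κ, η))` at `κ = λ⁺` for singular `λ`, under GCH

The relation fails for every `η ≥ 2`. The proof constructs sets `N α ⊆ α` (`α < λ⁺`), any two of
which have fewer than `λ` common elements, such that every set of `λ⁺` ordinals meets `N α` for all
sufficiently large `α` (see `Pool.Agent.H651R2.exists_family`).
-/

namespace Pool.Agent.Results.MP_089608_lc.SingularFails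

open Cardinal Set

universe u

/-- The polarized relation `(κ, κ) → ((η₀, η₁), (η₂, η₃))^{1,1}`: for every partition of `κ × κ`
into two disjoint pieces `Δ₀`, `Δ₁` there are `H₁, H₂ ⊆ κ` with `|H₁| = η₀`, `|H₂| = η₂` and
`H₁ × H₂ ⊆ Δ₀`, or there are `H₁, H₂ ⊆ κ` with `|H₁| = η₁`, `|H₂| = η₃` and `H₁ × H₂ ⊆ Δ₁`. -/
def Polarized (κ η₀ η₁ η₂ η₃ : Cardinal.{u}) : Prop :=
  ∀ Δ₀ Δ₁ : Set (κ.ord.ToType × κ.ord.ToType), Δ₀ ∪ Δ₁ = Set.univ → Disjoint Δ₀ Δ₁ →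
    (∃ H₁ H₂ : Set κ.ord.ToType, #H₁ = η₀ ∧ #H₂ = η₂ ∧ H₁ ×ˢ H₂ ⊆ Δ₀) ∨
    (∃ H₁ H₂ : Set κ.ord.ToType, #H₁ = η₁ ∧ #H₂ = η₃ ∧ H₁ ×ˢ H₂ ⊆ Δ₁)

/-- The relation `(∗)_η` for `κ = lam⁺`: `(κ, κ) → ((κ, lam), (κ, η))^{1,1}`. -/
def Star (lam η : Cardinal.{u}) : Prop :=
  Polarized (Order.succ lam) (Order.succ lam) lam (Order.succ lam) η

/-- Under GCH the relation `(∗)_η` fails for every singular cardinal `lam` and every `η > 1`. -/
theorem result (gch : ∀ c : Cardinal.{u}, ℵ₀ ≤ c → (2 : Cardinal.{u}) ^ c = Order.succ c)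
    (lam : Cardinal.{u}) (hlam : lam.IsSingular) (η : Cardinal.{u}) (hη : 1 < η) :
    ¬ Star lam η := by
  have hinf : ℵ₀ ≤ lam := hlam.aleph0_le
  have hK : #(Order.succ lam).ord.ToType = Order.succ lam := mk_ord_toType _
  have hI : ∀ a : (Order.succ lam).ord.ToType, #(Iio a) ≤ lam := by
    intro a
    have h := mk_Iio_lt a (by rw [hK]; simp)
    rw [hK] at h
    exact Order.lt_succ_iff.1 h
  have hstrong : ∀ c < lam, (2 : Cardinal.{u}) ^ c ≤ lam := by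
    intro c hc
    by_cases h : ℵ₀ ≤ c
    · rw [gch c h]
      exact Order.succ_le_of_lt hc
    · exact ((power_lt_aleph0 natCast_lt_aleph0 (not_le.1 h)).le).trans hinf
  obtain ⟨N, -, hN2, hN3⟩ := Pool.Agent.H651R2.exists_family hlam hstrong (gch lam hinf) hK hI
  intro hstar
  have hunb : ∀ H : Set (Order.succ lam).ord.ToType, #H = Order.succ lam →
      ∀ γ, ∃ α ∈ H, γ < α := by
    intro H hH γ
    by_contra hcon
    push Not at hcon
    have h1 : #H ≤ lam :=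
      Pool.Agent.H651R2.small_mono (t := Iic γ) (fun x hx => hcon x hx)
        (Pool.Agent.H651R2.small_Iic hinf (hI γ))
    rw [hH] at h1
    exact absurd h1 (not_le.2 (Order.lt_succ _))
  rcases hstar {p | p.1 ∉ N p.2} {p | p.1 ∈ N p.2}
    (by
      ext p
      constructor
      · exact fun _ => Set.mem_univ p
      · exact fun _ => (Classical.em (p.1 ∈ N p.2)).symm)
    (by
      rw [Set.disjoint_left]
      intro p hp hp'
      exact hp hp') with ⟨H₁, H₂, h1, h2, h3⟩ | ⟨H₁, H₂, h1, h2, h3⟩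
  · obtain ⟨b, hb⟩ := hN3 H₁ (hunb H₁ h1)
    obtain ⟨α, hα, hbα⟩ := hunb H₂ h2 b
    obtain ⟨x, hx1, hx2⟩ := hb α hbα
    exact h3 (Set.mk_mem_prod hx2 hα) hx1
  · have h4 : ∃ α ∈ H₂, ∃ β ∈ H₂, α ≠ β := by
      rw [← h2] at hη
      have : Nontrivial H₂ := one_lt_iff_nontrivial.1 hη
      obtain ⟨⟨α, hα⟩, ⟨β, hβ⟩, hne⟩ := exists_pair_ne H₂
      exact ⟨α, hα, β, hβ, fun h => hne (Subtype.ext h)⟩
    obtain ⟨α, hα, β, hβ, hne⟩ := h4
    have h5 : lam ≤ #(N α ∩ N β : Set (Order.succ lam).ord.ToType) := by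
      refine h1.ge.trans (mk_le_mk_of_subset fun x hx => ?_)
      exact ⟨h3 (Set.mk_mem_prod hx hα), h3 (Set.mk_mem_prod hx hβ)⟩
    exact absurd (hN2 α β hne) (not_lt.2 h5)

end Pool.Agent.Results.MP_089608_lc.SingularFails
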